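import Mathlib

set_option autoImplicit false

open scoped Polynomial

namespace H13V2

open Polynomial in
private theorem a1_core (R A : Type) [CommRing R] [IsDomain R] [IsIntegrallyClosed R] [CharZero R]
    [CommRing A] [IsDomain A] [Algebra R A] [Module.Finite R A] [FaithfulSMul R A] :
    ∃ (ω : A) (P : R[X]), P.Monic ∧ Irreducible P ∧ (∀ p : R[X], aeval ω p = 0 ↔ P ∣ p) ∧
      ∀ a : A, ∃ (r₀ : R) (q : R[X]), r₀ ≠ 0 ∧ algebraMap R A r₀ * a = aeval ω q := by
  let K := FractionRing R
  let L := FractionRing A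
  letI : Algebra K L := FractionRing.liftAlgebra R L
  haveI : IsScalarTower R K L := FractionRing.isScalarTower_liftAlgebra R L
  have hinj : Function.Injective (algebraMap R A) := FaithfulSMul.algebraMap_injective R A
  have hinjL : Function.Injective (algebraMap A L) := IsFractionRing.injective A L
  haveI hloc : IsLocalization (Algebra.algebraMapSubmonoid A (nonZeroDivisors R)) L := by
    refine ⟨⟨?_, ?_, ?_⟩⟩
    · rintro ⟨_, s, hs, rfl⟩
      have hs0 : s ≠ 0 := nonZeroDivisors.ne_zero hs
      refine IsUnit.mk0 _ ?_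
      intro h
      apply hs0
      apply hinj
      apply hinjL
      rw [map_zero, map_zero]
      exact h
    · intro z
      obtain ⟨⟨a, g⟩, hz⟩ := IsLocalization.surj (nonZeroDivisors A) z
      have hg : (g : A) ≠ 0 := nonZeroDivisors.ne_zero g.2
      have h1 := Ideal.comap_ne_bot_of_integral_mem (R := R) (I := Ideal.span {(g : A)}) hg
        (Ideal.mem_span_singleton_self _) (Algebra.IsIntegral.isIntegral (R := R) (g : A))
      obtain ⟨s, hs, hs0⟩ := Submodule.exists_mem_ne_zero_of_ne_bot h1
      obtain ⟨h, hh⟩ := Ideal.mem_span_singleton'.1 (Ideal.mem_comap.1 hs)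
      refine ⟨⟨h * a, ⟨algebraMap R A s, s, mem_nonZeroDivisors_of_ne_zero hs0, rfl⟩⟩, ?_⟩
      change z * algebraMap A L (algebraMap R A s) = algebraMap A L (h * a)
      rw [← hh, map_mul, map_mul, ← hz]
      ring
    · intro x y hxy
      exact ⟨1, by rw [hinjL hxy]⟩
  haveI : Module.Finite K L := Module.Finite.of_isLocalization R A (nonZeroDivisors R)
  haveI : CharZero K := charZero_of_injective_algebraMap (IsFractionRing.injective R K)
  obtain ⟨ω₀, hω₀⟩ := Field.exists_primitive_element K L
  obtain ⟨⟨ω, ⟨_, s, hs, rfl⟩⟩, hz⟩ :=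
    IsLocalization.surj (Algebra.algebraMapSubmonoid A (nonZeroDivisors R)) ω₀
  have hs0 : s ≠ 0 := nonZeroDivisors.ne_zero hs
  change ω₀ * algebraMap A L (algebraMap R A s) = algebraMap A L ω at hz
  have hsK : algebraMap R K s ≠ 0 := by
    intro h
    exact hs0 (IsFractionRing.injective R K (by rw [h, map_zero]))
  have hsL : algebraMap A L (algebraMap R A s) = algebraMap K L (algebraMap R K s) := by
    rw [← IsScalarTower.algebraMap_apply R K L, ← IsScalarTower.algebraMap_apply R A L]
  have htop : IntermediateField.adjoin K {algebraMap A L ω} = ⊤ := by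
    rw [eq_top_iff, ← hω₀, IntermediateField.adjoin_simple_le_iff]
    have h1 : ω₀ = algebraMap A L ω * algebraMap K L (algebraMap R K s)⁻¹ := by
      rw [← hz, hsL, mul_assoc, ← map_mul, mul_inv_cancel₀ hsK, map_one, mul_one]
    rw [h1]
    exact mul_mem (IntermediateField.mem_adjoin_simple_self K _)
      (IntermediateField.algebraMap_mem _ _)
  have hint : IsIntegral R ω := Algebra.IsIntegral.isIntegral (R := R) ω
  refine ⟨ω, minpoly R ω, minpoly.monic hint, minpoly.irreducible hint,
    fun p => minpoly.isIntegrallyClosed_dvd_iff hint p, ?_⟩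
  intro a
  have ha : algebraMap A L a ∈ (IntermediateField.adjoin K {algebraMap A L ω}).toSubalgebra := by
    rw [htop]
    exact Algebra.mem_top
  rw [IntermediateField.adjoin_simple_toSubalgebra_of_isAlgebraic
    (Algebra.IsAlgebraic.isAlgebraic (R := K) (algebraMap A L ω)),
    Algebra.adjoin_singleton_eq_range_aeval] at ha
  obtain ⟨p, hp⟩ := ha
  obtain ⟨b, hb, hb2⟩ := IsLocalization.integerNormalization_spec (nonZeroDivisors R) p
  refine ⟨b, IsLocalization.integerNormalization (nonZeroDivisors R) p,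
    nonZeroDivisors.ne_zero hb, ?_⟩
  apply hinjL
  have hp' : aeval (algebraMap A L ω) p = algebraMap A L a := hp
  have h2 : aeval (algebraMap A L ω)
      ((IsLocalization.integerNormalization (nonZeroDivisors R) p).map (algebraMap R K)) =
      algebraMap A L (aeval ω (IsLocalization.integerNormalization (nonZeroDivisors R) p)) := by
    rw [aeval_map_algebraMap, aeval_algebraMap_apply]
  rw [← h2, hb2, map_mul, ← IsScalarTower.algebraMap_apply R A L, ← hp',
    ← algebraMap_smul K b p, map_smul, Algebra.smul_def, ← IsScalarTower.algebraMap_apply R K L]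

/-- Noether normalisation with a primitive element.
Proof: ν from `exists_finite_inj_algHom_of_fg` (Mathlib), K = Frac ℂ[z], L = Frac A: finite separable
(characteristic 0), so L = K(ω), ω ∈ A after multiplication with an element of ℂ[z] ∖ 0; P = minimal
polynomial of ω over ℂ[z] (`minpoly.isIntegrallyClosed_eq_field_fractions`, Gauss lemma: irreducible,
and it divides every p with p(ω) = 0, `minpoly.isIntegrallyClosed_dvd_iff`); a ∈ A ⊆ K(ω) is a polynomial
in ω with coefficients in K: clear denominators. -/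
theorem alg_data (A : Type) [CommRing A] [IsDomain A] [Algebra ℂ A] [Algebra.FiniteType ℂ A] :
    ∃ (d : ℕ) (ν : MvPolynomial (Fin d) ℂ →ₐ[ℂ] A) (ω : A) (P : (MvPolynomial (Fin d) ℂ)[X]),
      Function.Injective ν ∧ ν.Finite ∧ P.Monic ∧ Irreducible P ∧
      (∀ p : (MvPolynomial (Fin d) ℂ)[X],
        (p.eval₂ (ν : MvPolynomial (Fin d) ℂ →+* A) ω = 0 ↔ P ∣ p)) ∧
      ∀ a : A, ∃ (r₀ : MvPolynomial (Fin d) ℂ) (q : (MvPolynomial (Fin d) ℂ)[X]), r₀ ≠ 0 ∧
        ν r₀ * a = q.eval₂ (ν : MvPolynomial (Fin d) ℂ →+* A) ω := by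
  obtain ⟨d, ν, hν, hf⟩ := exists_finite_inj_algHom_of_fg ℂ A
  letI : Algebra (MvPolynomial (Fin d) ℂ) A := (ν : MvPolynomial (Fin d) ℂ →+* A).toAlgebra
  haveI : Module.Finite (MvPolynomial (Fin d) ℂ) A := hf
  haveI : FaithfulSMul (MvPolynomial (Fin d) ℂ) A :=
    (faithfulSMul_iff_algebraMap_injective _ _).2 hν
  obtain ⟨ω, P, h1, h2, h3, h4⟩ := a1_core (MvPolynomial (Fin d) ℂ) A
  exact ⟨d, ν, ω, P, hν, hf, h1, h2, h3, h4⟩

end H13V2
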