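import Mathlib

set_option autoImplicit false

open scoped Polynomial

namespace H13V2

/-- A nonzero element of a finite extension divides a nonzero element of the base.
Proof: g is integral over ℂ[z]; in a monic equation of minimal degree the constant term is not 0
(A is a domain) and it is a multiple of g. -/
theorem exists_multiple {A : Type} [CommRing A] [IsDomain A] [Algebra ℂ A] {d : ℕ}
    (ν : MvPolynomial (Fin d) ℂ →ₐ[ℂ] A) (hν : Function.Injective ν) (hf : ν.Finite) (g : A)
    (hg : g ≠ 0) : ∃ (s : MvPolynomial (Fin d) ℂ) (h : A), s ≠ 0 ∧ ν s = g * h := by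
  letI : Algebra (MvPolynomial (Fin d) ℂ) A := ν.toRingHom.toAlgebra
  have h1 : ν.toRingHom.IsIntegral := RingHom.Finite.to_isIntegral hf
  have h2 : IsIntegral (MvPolynomial (Fin d) ℂ) g := h1 g
  obtain ⟨s, hs, h, hh⟩ := h2.isAlgebraic.exists_nonzero_dvd (mem_nonZeroDivisors_of_ne_zero hg)
  exact ⟨s, h, hs, hh⟩

end H13V2
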