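import Pool.Agent.Lib.H13V2.D
import Pool.Agent.Lib.H13V2.A1
import Pool.Agent.Lib.H13V2.A2
import Pool.Agent.Lib.H13M.C1

set_option autoImplicit false

open scoped Polynomial

namespace H13V2

open H13K H13M

variable {n : ℕ}

private theorem a3_ev {d : ℕ} (p : (MvPolynomial (Fin d) ℂ)[X]) (y : (Fin d → ℂ) × ℂ) :
    ev p y = p.eval₂ (MvPolynomial.eval y.1) y.2 := by
  unfold ev
  rw [Polynomial.eval_map]

/-- The point `x` with the coordinates `q_j (y) / r`: a relation which holds in the quotient ring holds at `x`. -/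
private theorem a3_point (I : Ideal (MvPolynomial (Fin n) ℂ)) {d : ℕ}
    (ν : MvPolynomial (Fin d) ℂ →+* (MvPolynomial (Fin n) ℂ ⧸ I))
    (hνC : ∀ a : ℂ, ν (MvPolynomial.C a) = Ideal.Quotient.mk I (MvPolynomial.C a))
    (ω : MvPolynomial (Fin n) ℂ ⧸ I) (P : (MvPolynomial (Fin d) ℂ)[X])
    (hker : ∀ p : (MvPolynomial (Fin d) ℂ)[X], p.eval₂ ν ω = 0 → P ∣ p)
    (r : MvPolynomial (Fin d) ℂ) (q : Fin n → (MvPolynomial (Fin d) ℂ)[X])
    (hq : ∀ j, ν r * Ideal.Quotient.mk I (MvPolynomial.X j) = (q j).eval₂ ν ω)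
    (y : (Fin d → ℂ) × ℂ) (hr : MvPolynomial.eval y.1 r ≠ 0) (hP : ev P y = 0)
    (f : MvPolynomial (Fin n) ℂ) (p : (MvPolynomial (Fin d) ℂ)[X])
    (hfp : Ideal.Quotient.mk I f = p.eval₂ ν ω) :
    MvPolynomial.eval (fun j => ev (q j) y / MvPolynomial.eval y.1 r) f = ev p y := by
  have hN : ∀ f : MvPolynomial (Fin n) ℂ, ∃ (N : ℕ) (p : (MvPolynomial (Fin d) ℂ)[X]),
      ν r ^ N * Ideal.Quotient.mk I f = p.eval₂ ν ω ∧
      p.eval₂ (MvPolynomial.eval y.1) y.2 = MvPolynomial.eval y.1 r ^ N *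
        MvPolynomial.eval (fun j => ev (q j) y / MvPolynomial.eval y.1 r) f := by
    intro f
    induction f using MvPolynomial.induction_on with
    | C a =>
      refine ⟨0, Polynomial.C (MvPolynomial.C a), ?_, ?_⟩
      · rw [pow_zero, one_mul, Polynomial.eval₂_C, hνC]
      · rw [pow_zero, one_mul, Polynomial.eval₂_C, MvPolynomial.eval_C, MvPolynomial.eval_C]
    | add f1 f2 h1 h2 =>
      obtain ⟨N1, p1, e1, e1'⟩ := h1
      obtain ⟨N2, p2, e2, e2'⟩ := h2
      refine ⟨N1 + N2, Polynomial.C (r ^ N2) * p1 + Polynomial.C (r ^ N1) * p2, ?_, ?_⟩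
      · rw [Polynomial.eval₂_add, Polynomial.eval₂_mul, Polynomial.eval₂_mul, Polynomial.eval₂_C,
          Polynomial.eval₂_C, ← e1, ← e2, map_pow, map_pow, map_add]
        ring
      · rw [Polynomial.eval₂_add, Polynomial.eval₂_mul, Polynomial.eval₂_mul, Polynomial.eval₂_C,
          Polynomial.eval₂_C, e1', e2', map_pow, map_pow, map_add]
        ring
    | mul_X f j h =>
      obtain ⟨N, p, e1, e1'⟩ := h
      refine ⟨N + 1, p * q j, ?_, ?_⟩
      · rw [Polynomial.eval₂_mul, ← e1, ← hq j, map_mul]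
        ring
      · rw [Polynomial.eval₂_mul, e1', map_mul, MvPolynomial.eval_X, ← a3_ev (q j) y, pow_succ]
        field_simp
  obtain ⟨N, p', h1, h2⟩ := hN f
  have h3 : P ∣ Polynomial.C (r ^ N) * p - p' := by
    apply hker
    rw [Polynomial.eval₂_sub, Polynomial.eval₂_mul, Polynomial.eval₂_C, ← h1, ← hfp, map_pow, sub_self]
  obtain ⟨c, hc⟩ := h3
  have h4 := congrArg (fun t : (MvPolynomial (Fin d) ℂ)[X] => t.eval₂ (MvPolynomial.eval y.1) y.2) hc
  simp only [Polynomial.eval₂_sub, Polynomial.eval₂_mul, Polynomial.eval₂_C, h2] at h4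
  rw [a3_ev] at hP
  rw [hP, zero_mul, map_pow, ← mul_sub, mul_eq_zero] at h4
  rcases h4 with h4 | h4
  · exact absurd h4 (pow_ne_zero _ hr)
  · rw [a3_ev p y]
    exact (sub_eq_zero.1 h4).symm

/-- Every variety has arbitrarily small nonempty open subsets in normal form.
Proof: A = ℂ[x] / I; ν, ω, P from `alg_data`; r_j, q_j for the classes of the x_j; s, h from
`exists_multiple` for the class of g; δ a discriminant of P (H13M.exists_disc for the family
fun _ : Unit => P: simple roots); r = s * δ * ∏ r_j; q'_j = q_j * C (r / r_j).  ζ_i, ω', h' lifts of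
ν z_i, ω, h to ℂ[x]; g' = g * h' * (δ * ∏ r_j) (ζ): on the zero set of I it is r (ζ x); it is not in I because
ν r ≠ 0.  On the zero set: P (ζ x, ω' x) = 0 and x_j r = q'_j (ζ x, ω' x) because these are identities in
A.  Converse: for (z, w) with P (z, w) = 0, r z ≠ 0 let x_j = q'_j (z, w) / r z.  The evaluation
ℂ[z][w] → ℂ at (z, w) factors through ℂ[z][w] / (P) ⊆ A (kernel of p ↦ p(ω) is (P)); for a polynomial f
in x the element r ^ N f (q' / r) of ℂ[z][w] (N = total degree, homogenised) is mapped to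
ν(r) ^ N f (x) in A; if f ∈ I this is 0, so P divides it and f (x) = 0; similarly ζ_i (x) = z_i (use
f = ζ_i - z_i with an extra term) and ω' (x) = w. -/
theorem exists_nf (I : Ideal (MvPolynomial (Fin n) ℂ)) (hI : I.IsPrime)
    (g : MvPolynomial (Fin n) ℂ) (hg : g ∉ I) :
    ∃ (g' : MvPolynomial (Fin n) ℂ) (d : ℕ) (P : (MvPolynomial (Fin d) ℂ)[X])
      (r : MvPolynomial (Fin d) ℂ), g' ∉ I ∧ g ∣ g' ∧ NF I g' d P r := by
  classical
  obtain ⟨d, ν, ω, P, hinj, hfin, hPm, hPi, hker, hcl⟩ := alg_data (MvPolynomial (Fin n) ℂ ⧸ I)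
  set π : MvPolynomial (Fin n) ℂ →+* (MvPolynomial (Fin n) ℂ ⧸ I) := Ideal.Quotient.mk I with hπ
  have hgA : π g ≠ 0 := fun h => hg (Ideal.Quotient.eq_zero_iff_mem.1 h)
  obtain ⟨s, h, hs, hsh⟩ := exists_multiple ν hinj hfin (π g) hgA
  choose r₀ q₀ hr₀ hq₀ using fun j => hcl (π (MvPolynomial.X j))
  obtain ⟨δ, hδ⟩ := H13M.exists_disc (fun _ : Unit => P) (fun _ => hPm) (fun _ => hPi)
    (fun _ _ _ => rfl)
  choose ζ hζ using fun i => Ideal.Quotient.mk_surjective (I := I) (ν (MvPolynomial.X i))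
  obtain ⟨ω', hω'⟩ := Ideal.Quotient.mk_surjective (I := I) ω
  obtain ⟨h', hh'⟩ := Ideal.Quotient.mk_surjective (I := I) h
  have hνC : ∀ a : ℂ, (ν : MvPolynomial (Fin d) ℂ →+* (MvPolynomial (Fin n) ℂ ⧸ I)) (MvPolynomial.C a) =
      π (MvPolynomial.C a) := by
    intro a
    exact ν.commutes a
  -- the lift of a polynomial in `z`
  have hlift : π.comp (MvPolynomial.aeval ζ : MvPolynomial (Fin d) ℂ →ₐ[ℂ] MvPolynomial (Fin n) ℂ).toRingHom =
      (ν : MvPolynomial (Fin d) ℂ →+* (MvPolynomial (Fin n) ℂ ⧸ I)) := by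
    refine MvPolynomial.ringHom_ext (fun a => ?_) fun i => ?_
    · rw [hνC]
      simp
    · have h1 : π (MvPolynomial.aeval ζ (MvPolynomial.X i : MvPolynomial (Fin d) ℂ)) = ν (MvPolynomial.X i) := by
        rw [MvPolynomial.aeval_X]
        exact hζ i
      exact h1
  have hlift' : ∀ p : MvPolynomial (Fin d) ℂ, π (MvPolynomial.aeval ζ p) = ν p := fun p =>
    congrArg (fun F : MvPolynomial (Fin d) ℂ →+* (MvPolynomial (Fin n) ℂ ⧸ I) => F p) hlift
  have hval : ∀ (x : Fin n → ℂ), (MvPolynomial.eval x).comp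
      (MvPolynomial.aeval ζ : MvPolynomial (Fin d) ℂ →ₐ[ℂ] MvPolynomial (Fin n) ℂ).toRingHom =
      MvPolynomial.eval (fun i => MvPolynomial.eval x (ζ i)) := by
    intro x
    refine MvPolynomial.ringHom_ext (fun a => ?_) fun i => ?_
    · simp
    · simp
  have hval' : ∀ (x : Fin n → ℂ) (p : MvPolynomial (Fin d) ℂ), MvPolynomial.eval x (MvPolynomial.aeval ζ p) =
      MvPolynomial.eval (fun i => MvPolynomial.eval x (ζ i)) p := fun x p =>
    congrArg (fun F : MvPolynomial (Fin d) ℂ →+* ℂ => F p) (hval x)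
  -- values on the zero set depend on the class only
  have hcls : ∀ x ∈ VI I, ∀ f1 f2 : MvPolynomial (Fin n) ℂ, π f1 = π f2 →
      MvPolynomial.eval x f1 = MvPolynomial.eval x f2 := by
    intro x hx f1 f2 h12
    have h1 := hx (f1 - f2) (Ideal.Quotient.eq.1 h12)
    rw [map_sub, sub_eq_zero] at h1
    exact h1
  -- the lift of a polynomial in `z`, `w`
  have hF : ∀ p : (MvPolynomial (Fin d) ℂ)[X],
      π (p.eval₂ (MvPolynomial.aeval ζ : MvPolynomial (Fin d) ℂ →ₐ[ℂ] MvPolynomial (Fin n) ℂ).toRingHom ω') =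
      p.eval₂ (ν : MvPolynomial (Fin d) ℂ →+* (MvPolynomial (Fin n) ℂ ⧸ I)) ω := by
    intro p
    rw [Polynomial.hom_eval₂, hlift, hω']
  have hE : ∀ (p : (MvPolynomial (Fin d) ℂ)[X]) (x : Fin n → ℂ), MvPolynomial.eval x
      (p.eval₂ (MvPolynomial.aeval ζ : MvPolynomial (Fin d) ℂ →ₐ[ℂ] MvPolynomial (Fin n) ℂ).toRingHom ω') =
      ev p (fun i => MvPolynomial.eval x (ζ i), MvPolynomial.eval x ω') := by
    intro p x
    rw [Polynomial.hom_eval₂, hval, a3_ev]
  -- the data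
  set ρ : MvPolynomial (Fin d) ℂ := ∏ j, r₀ j with hρ
  have hρ0 : ρ ≠ 0 := Finset.prod_ne_zero_iff.2 fun j _ => hr₀ j
  set r : MvPolynomial (Fin d) ℂ := s * δ * ρ with hr
  have hr0 : r ≠ 0 := mul_ne_zero (mul_ne_zero hs hδ.ne) hρ0
  set q : Fin n → (MvPolynomial (Fin d) ℂ)[X] := fun j =>
    q₀ j * Polynomial.C (s * δ * ∏ i ∈ Finset.univ.erase j, r₀ i) with hq
  have hqj : ∀ j, (ν : MvPolynomial (Fin d) ℂ →+* (MvPolynomial (Fin n) ℂ ⧸ I)) r * π (MvPolynomial.X j) =
      (q j).eval₂ (ν : MvPolynomial (Fin d) ℂ →+* (MvPolynomial (Fin n) ℂ ⧸ I)) ω := by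
    intro j
    have h1 : r = r₀ j * (s * δ * ∏ i ∈ Finset.univ.erase j, r₀ i) := by
      rw [hr, hρ, ← Finset.mul_prod_erase Finset.univ r₀ (Finset.mem_univ j)]
      ring
    have h2 : (ν : MvPolynomial (Fin d) ℂ →+* (MvPolynomial (Fin n) ℂ ⧸ I)) (r₀ j) * π (MvPolynomial.X j) =
        (q₀ j).eval₂ (ν : MvPolynomial (Fin d) ℂ →+* (MvPolynomial (Fin n) ℂ ⧸ I)) ω := hq₀ j
    rw [hq, Polynomial.eval₂_mul, Polynomial.eval₂_C, ← h2, h1, map_mul]
    ring
  set g' : MvPolynomial (Fin n) ℂ := g * h' * MvPolynomial.aeval ζ (δ * ρ) with hg'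
  have hπg' : π g' = ν r := by
    have h1 : π h' = h := hh'
    rw [hg', map_mul, map_mul, hlift', h1, ← hsh, ← map_mul, hr, mul_assoc]
  refine ⟨g', d, P, r, ?_, ⟨h' * MvPolynomial.aeval ζ (δ * ρ), by rw [hg', mul_assoc]⟩, ?_⟩
  · intro hmem
    have h1 : π g' = 0 := Ideal.Quotient.eq_zero_iff_mem.2 hmem
    rw [hπg'] at h1
    exact hr0 ((map_eq_zero_iff ν hinj).1 h1)
  · refine ⟨hPm, hPi, hr0, ?_, ζ, ω', q, ?_, ?_, ?_, ?_⟩
    · intro y hy hPy
      refine hδ.simple () y ?_ hPy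
      intro h0
      apply hy
      rw [hr, map_mul, map_mul, h0, mul_zero, zero_mul]
    · intro x hx
      rw [← hval' x r]
      refine hcls x hx _ _ ?_
      rw [hπg', hlift']
    · intro x hx
      rw [← hE]
      refine hx _ (Ideal.Quotient.eq_zero_iff_mem.1 ?_)
      have h1 := hF P
      rw [(hker P).2 dvd_rfl] at h1
      exact h1
    · intro x hx j
      rw [← hE, ← hval' x r]
      have h1 : MvPolynomial.eval x (MvPolynomial.X j * MvPolynomial.aeval ζ r) =
          x j * MvPolynomial.eval x (MvPolynomial.aeval ζ r) := by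
        rw [map_mul, MvPolynomial.eval_X]
      rw [← h1]
      refine hcls x hx _ _ ?_
      rw [hF, ← hqj j, map_mul, hlift']
      exact mul_comm _ _
    · rintro y ⟨hy1, hy2⟩
      have hpt := fun f p => a3_point I (ν : MvPolynomial (Fin d) ℂ →+* (MvPolynomial (Fin n) ℂ ⧸ I)) hνC ω P
        (fun p hp => (hker p).1 hp) r q hqj y hy1 hy2 f p
      refine ⟨fun j => ev (q j) y / MvPolynomial.eval y.1 r, ?_, ?_, ?_, ?_⟩
      · intro f hf
        have h1 := hpt f 0 (by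
          rw [Polynomial.eval₂_zero]
          exact Ideal.Quotient.eq_zero_iff_mem.2 hf)
        rw [h1, a3_ev, Polynomial.eval₂_zero]
      · intro j
        exact div_mul_cancel₀ _ hy1
      · intro i
        have h1 := hpt (ζ i) (Polynomial.C (MvPolynomial.X i)) (by
          rw [Polynomial.eval₂_C]
          exact hζ i)
        rw [h1, a3_ev, Polynomial.eval₂_C, MvPolynomial.eval_X]
      · have h1 := hpt ω' Polynomial.X (by
          rw [Polynomial.eval₂_X]
          exact hω')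
        rw [h1, a3_ev, Polynomial.eval₂_X]

end H13V2
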