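import Pool.Agent.Lib.H13V2.D

set_option autoImplicit false

open scoped Polynomial

namespace H13V2

open H13K H13M

variable {n : ℕ}

/-- The normal form is a homeomorphism.
Proof: x ↦ (ζ x, ω x), inverse (z, w) ↦ (q_j (z, w) / r z)_j, both continuous. -/
theorem homeo_nf (I : Ideal (MvPolynomial (Fin n) ℂ)) (g' : MvPolynomial (Fin n) ℂ) (d : ℕ)
    (P : (MvPolynomial (Fin d) ℂ)[X]) (r : MvPolynomial (Fin d) ℂ) (h : NF I g' d P r) :
    Nonempty (VG I g' ≃ₜ H13M.CS P r) := by
  obtain ⟨ζ, ω, q, h1, h2, h3, h4⟩ := h.map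
  -- the inverse image of a point
  have key : ∀ y ∈ H13M.CS P r, ∃ x ∈ VI I,
      (fun j => ev (q j) y / MvPolynomial.eval y.1 r) = x ∧
      (fun i => MvPolynomial.eval x (ζ i)) = y.1 ∧ MvPolynomial.eval x ω = y.2 := by
    intro y hy
    obtain ⟨x, hx, hx1, hx2, hx3⟩ := h4 y hy
    refine ⟨x, hx, ?_, funext hx2, hx3⟩
    funext j
    rw [← hx1 j]
    exact mul_div_cancel_right₀ _ hy.1
  have hto : ∀ x ∈ VG I g', ((fun i => MvPolynomial.eval x (ζ i)), MvPolynomial.eval x ω) ∈ H13M.CS P r := by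
    intro x hx
    refine ⟨?_, h2 x hx.1⟩
    show MvPolynomial.eval (fun i => MvPolynomial.eval x (ζ i)) r ≠ 0
    rw [← h1 x hx.1]
    exact hx.2
  have hinv : ∀ y ∈ H13M.CS P r, (fun j => ev (q j) y / MvPolynomial.eval y.1 r) ∈ VG I g' := by
    intro y hy
    obtain ⟨x, hx, hx1, hx2, hx3⟩ := key y hy
    rw [hx1]
    refine ⟨hx, ?_⟩
    rw [h1 x hx, hx2]
    exact hy.1
  refine ⟨{
    toFun := fun x => ⟨((fun i => MvPolynomial.eval x.1 (ζ i)), MvPolynomial.eval x.1 ω), hto x.1 x.2⟩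
    invFun := fun y => ⟨fun j => ev (q j) y.1 / MvPolynomial.eval y.1.1 r, hinv y.1 y.2⟩
    left_inv := fun x => ?_
    right_inv := fun y => ?_
    continuous_toFun := ?_
    continuous_invFun := ?_ }⟩
  · apply Subtype.ext
    funext j
    show ev (q j) ((fun i => MvPolynomial.eval x.1 (ζ i)), MvPolynomial.eval x.1 ω) /
      MvPolynomial.eval (fun i => MvPolynomial.eval x.1 (ζ i)) r = x.1 j
    rw [← h3 x.1 x.2.1 j]
    exact mul_div_cancel_right₀ _ (hto x.1 x.2).1
  · obtain ⟨x, hx, hx1, hx2, hx3⟩ := key y.1 y.2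
    apply Subtype.ext
    show ((fun i => MvPolynomial.eval (fun j => ev (q j) y.1 / MvPolynomial.eval y.1.1 r) (ζ i)),
      MvPolynomial.eval (fun j => ev (q j) y.1 / MvPolynomial.eval y.1.1 r) ω) = y.1
    rw [hx1, hx2, hx3]
  · apply Continuous.subtype_mk
    exact (continuous_pi fun i => (MvPolynomial.continuous_eval (ζ i)).comp continuous_subtype_val).prodMk
      ((MvPolynomial.continuous_eval ω).comp continuous_subtype_val)
  · apply Continuous.subtype_mk
    refine continuous_pi fun j => ?_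
    exact ((continuous_ev (q j)).comp continuous_subtype_val).div
      ((MvPolynomial.continuous_eval r).comp (continuous_fst.comp continuous_subtype_val))
      (fun y => y.2.1)

end H13V2
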