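import Pool.Agent.Lib.H13V2.D
import Pool.Agent.Lib.H13M.C3

set_option autoImplicit false

open scoped Polynomial

namespace H13V2

open H13K H13M

private theorem b2_evenly {d : ℕ} {X : Type} [TopologicalSpace X] (p : (MvPolynomial (Fin d) ℂ)[X])
    (hp : p.Monic) (z : C(X, Fin d → ℂ)) (t₀ : X)
    (hs : ∀ w, H13M.ev p (z t₀, w) = 0 → H13M.ev (Polynomial.derivative p) (z t₀, w) ≠ 0) :
    IsEvenlyCovered (fun q : {q : X × ℂ // H13M.ev p (z q.1, q.2) = 0} => q.1.1) t₀
      (Fin p.natDegree) := by
  obtain ⟨ρ, hρ, h, hd, hi, hf⟩ := H13M.local_roots p hp (z t₀) hs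
  set E := {q : X × ℂ // H13M.ev p (z q.1, q.2) = 0} with hE
  set U : Set X := z ⁻¹' Metric.ball (z t₀) ρ with hU
  have hUo : IsOpen U := Metric.isOpen_ball.preimage z.continuous
  have hfc : Continuous (fun q : E => q.1.1) := continuous_fst.comp continuous_subtype_val
  have hroot : ∀ t ∈ U, ∀ w, H13M.ev p (z t, w) = 0 ↔ ∃ a, h a (z t) = w := by
    intro t ht w
    rw [H13M.ev, hf (z t) ht, Polynomial.eval_prod, Finset.prod_eq_zero_iff]
    constructor
    · rintro ⟨a, -, ha⟩
      refine ⟨a, ?_⟩
      rw [Polynomial.eval_sub, Polynomial.eval_X, Polynomial.eval_C, sub_eq_zero] at ha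
      exact ha.symm
    · rintro ⟨a, ha⟩
      refine ⟨a, Finset.mem_univ _, ?_⟩
      rw [Polynomial.eval_sub, Polynomial.eval_X, Polynomial.eval_C, ha, sub_self]
  have hcont : ∀ a, Continuous (fun t : U => h a (z t.1)) := by
    intro a
    have h1 : ContinuousOn (h a) (Metric.ball (z t₀) ρ) := (hd a).continuousOn
    exact h1.comp_continuous (z.continuous.comp continuous_subtype_val) (fun t => t.2)
  have hex : ∀ q : (fun q : E => q.1.1) ⁻¹' U, ∃ a, h a (z q.1.1.1) = q.1.1.2 := by
    intro q
    exact (hroot q.1.1.1 q.2 q.1.1.2).1 q.1.2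
  choose idx hidx using hex
  have hidx_iff : ∀ q a, idx q = a ↔ h a (z q.1.1.1) = q.1.1.2 := by
    intro q a
    constructor
    · rintro rfl
      exact hidx q
    · intro ha
      exact hi (z q.1.1.1) q.2 (by show h (idx q) _ = h a _; rw [hidx q, ha])
  have hclosed : ∀ a, IsClosed {q : (fun q : E => q.1.1) ⁻¹' U | idx q = a} := by
    intro a
    have h2 : {q : (fun q : E => q.1.1) ⁻¹' U | idx q = a} =
        {q | h a (z q.1.1.1) = q.1.1.2} := by
      ext q
      exact hidx_iff q a
    rw [h2]
    apply isClosed_eq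
    · exact (hcont a).comp (Continuous.subtype_mk (hfc.comp continuous_subtype_val) (fun q => q.2))
    · exact continuous_snd.comp (continuous_subtype_val.comp continuous_subtype_val)
  refine ⟨inferInstance, U, by simp [hU, hρ], hUo, hUo.preimage hfc,
    { toFun := fun q => (⟨q.1.1.1, q.2⟩, idx q)
      invFun := fun y => ⟨⟨(y.1.1, h y.2 (z y.1.1)),
        (hroot y.1.1 y.1.2 _).2 ⟨y.2, rfl⟩⟩, y.1.2⟩
      left_inv := ?_
      right_inv := ?_
      continuous_toFun := ?_
      continuous_invFun := ?_ }, fun _ => rfl⟩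
  · intro q
    apply Subtype.ext
    apply Subtype.ext
    exact Prod.ext rfl (hidx q)
  · intro y
    refine Prod.ext rfl ?_
    exact (hidx_iff _ _).2 rfl
  · refine Continuous.prodMk
      (Continuous.subtype_mk (hfc.comp continuous_subtype_val) (fun q => q.2)) ?_
    rw [continuous_discrete_rng]
    intro a
    have h3 : idx ⁻¹' {a} = (⋃ b ∈ (Finset.univ.erase a : Finset (Fin p.natDegree)),
        {q : (fun q : E => q.1.1) ⁻¹' U | idx q = b})ᶜ := by
      ext q
      simp only [Set.mem_preimage, Set.mem_singleton_iff, Set.mem_compl_iff, Set.mem_iUnion,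
        Finset.mem_erase, Finset.mem_univ, and_true, Set.mem_ofPred_eq, exists_prop, not_exists,
        not_and]
      constructor
      · intro h4 b hb h5
        exact hb (h5.symm.trans h4)
      · intro h4
        by_contra h5
        exact h4 (idx q) h5 rfl
    rw [h3, isOpen_compl_iff]
    exact isClosed_biUnion_finset (fun b _ => hclosed b)
  · refine Continuous.subtype_mk (Continuous.subtype_mk ?_ _) _
    refine Continuous.prodMk (continuous_subtype_val.comp continuous_fst) ?_
    rw [continuous_prod_of_discrete_right]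
    intro a
    exact hcont a

/-- The projection of the hypersurface to {r ≠ 0}. -/
def proj {d : ℕ} (P : (MvPolynomial (Fin d) ℂ)[X]) (r : MvPolynomial (Fin d) ℂ)
    (y : H13M.CS P r) : {z : Fin d → ℂ // MvPolynomial.eval z r ≠ 0} := ⟨y.1.1, y.2.1⟩

/-- The projection is a covering map with finite fibres.
Proof: over a small ball around z₀ with r ≠ 0 the curve is the union of the disjoint graphs of
natDegree P continuous functions (`H13M.local_roots`): evenly covered.  Compare H13K/K4.lean
(`evenly`) and H13J/F2a.lean. -/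
theorem cs_cover {d : ℕ} (P : (MvPolynomial (Fin d) ℂ)[X]) (hP : P.Monic)
    (r : MvPolynomial (Fin d) ℂ) (hs : H13M.Simple P r) :
    IsCoveringMap (proj P r) ∧ ∀ z, (proj P r ⁻¹' {z}).Finite := by
  let X : Type := {z : Fin d → ℂ // MvPolynomial.eval z r ≠ 0}
  let zc : C(X, Fin d → ℂ) := ⟨Subtype.val, continuous_subtype_val⟩
  have hs' : ∀ (t : X) w, H13M.ev P (zc t, w) = 0 →
      H13M.ev (Polynomial.derivative P) (zc t, w) ≠ 0 := fun t w hw => hs (zc t, w) t.2 hw
  have hcov : IsCoveringMap (fun q : {q : X × ℂ // H13M.ev P (zc q.1, q.2) = 0} => q.1.1) :=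
    fun t => (b2_evenly P hP zc t (hs' t)).to_isEvenlyCovered_preimage
  let g : H13M.CS P r ≃ₜ {q : X × ℂ // H13M.ev P (zc q.1, q.2) = 0} :=
    { toFun := fun y => ⟨(⟨y.1.1, y.2.1⟩, y.1.2), y.2.2⟩
      invFun := fun q => ⟨(q.1.1.1, q.1.2), q.1.1.2, q.2⟩
      left_inv := fun y => rfl
      right_inv := fun q => rfl
      continuous_toFun := by
        refine Continuous.subtype_mk (Continuous.prodMk (Continuous.subtype_mk ?_ _) ?_) _
        · exact continuous_fst.comp continuous_subtype_val
        · exact continuous_snd.comp continuous_subtype_val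
      continuous_invFun := by
        refine Continuous.subtype_mk (Continuous.prodMk ?_ ?_) _
        · exact continuous_subtype_val.comp (continuous_fst.comp continuous_subtype_val)
        · exact continuous_snd.comp continuous_subtype_val }
  refine ⟨hcov.comp_homeomorph g, ?_⟩
  intro z
  have hfin : {w : ℂ | H13M.ev P (z.1, w) = 0}.Finite := by
    have hne : P.map (MvPolynomial.eval z.1) ≠ 0 := (hP.map _).ne_zero
    apply ((P.map (MvPolynomial.eval z.1)).roots.toFinset.finite_toSet).subset
    intro w hw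
    rw [Finset.mem_coe, Multiset.mem_toFinset, Polynomial.mem_roots hne]
    exact hw
  refine Set.Finite.of_finite_image (f := fun y : H13M.CS P r => y.1.2) (hfin.subset ?_) ?_
  · rintro w ⟨y, hy, rfl⟩
    have h1 : y.1.1 = z.1 := congrArg Subtype.val hy
    show H13M.ev P (z.1, y.1.2) = 0
    rw [← h1]
    exact y.2.2
  · intro y hy y' hy' h
    have h1 : y.1.1 = z.1 := congrArg Subtype.val hy
    have h2 : y'.1.1 = z.1 := congrArg Subtype.val hy'
    exact Subtype.ext (Prod.ext (h1.trans h2.symm) h)

end H13V2
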