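import Pool.Agent.Lib.H13V2.D
import Pool.Agent.Lib.H13M.C3
import Pool.Agent.Lib.H13K.Q1
import Pool.Agent.Lib.H13K.K20

set_option autoImplicit false

open scoped Polynomial

namespace H13V2

open H13K H13M

/-- A homeomorphism induces an isomorphism of fundamental groups. -/
private theorem b3_pi {X Y : Type} [TopologicalSpace X] [TopologicalSpace Y] (e : X ≃ₜ Y) {x : X}
    {y : Y} (h : e x = y) : Nonempty (FundamentalGroup X x ≃* FundamentalGroup Y y) := by
  have h' : e.symm y = x := by rw [← h, e.symm_apply_apply]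
  refine ⟨MonoidHom.toMulEquiv
    (FundamentalGroup.mapOfEq (⟨e, e.continuous⟩ : C(X, Y)) (x := x) (y := y) h)
    (FundamentalGroup.mapOfEq (⟨e.symm, e.symm.continuous⟩ : C(Y, X)) (x := y) (y := x) h') ?_ ?_⟩
  · ext p
    rw [MonoidHom.comp_apply, FundamentalGroup.mapOfEq_apply, FundamentalGroup.mapOfEq_apply]
    induction p using Path.Homotopic.Quotient.ind with | mk γ =>
    change Path.Homotopic.Quotient.mk _ = Path.Homotopic.Quotient.mk γ
    congr 1
    exact Path.ext (funext fun t => e.symm_apply_apply (γ t))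
  · ext p
    rw [MonoidHom.comp_apply, FundamentalGroup.mapOfEq_apply, FundamentalGroup.mapOfEq_apply]
    induction p using Path.Homotopic.Quotient.ind with | mk γ =>
    change Path.Homotopic.Quotient.mk _ = Path.Homotopic.Quotient.mk γ
    congr 1
    exact Path.ext (funext fun t => e.apply_symm_apply (γ t))

section model

variable {n : ℕ}

private def cz (p : Fin (n + 2) → ℂ) : Fin n → ℂ := fun k => p k.castSucc.castSucc

private def cw (p : Fin (n + 2) → ℂ) : ℂ := p (Fin.last n).castSucc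

private def cu (p : Fin (n + 2) → ℂ) : ℂ := p (Fin.last (n + 1))

private def mk3 (z : Fin n → ℂ) (w u : ℂ) : Fin (n + 2) → ℂ :=
  Fin.snoc (α := fun _ => ℂ) (Fin.snoc (α := fun _ => ℂ) z w) u

private theorem cz_mk3 (z : Fin n → ℂ) (w u : ℂ) : cz (mk3 z w u) = z := by
  funext k
  simp [cz, mk3]

private theorem cw_mk3 (z : Fin n → ℂ) (w u : ℂ) : cw (mk3 z w u) = w := by
  simp [cw, mk3]

private theorem cu_mk3 (z : Fin n → ℂ) (w u : ℂ) : cu (mk3 z w u) = u := by
  simp [cu, mk3]

private theorem mk3_eta (p : Fin (n + 2) → ℂ) : mk3 (cz p) (cw p) (cu p) = p := by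
  funext k
  refine Fin.lastCases ?_ (fun k => ?_) k
  · simp [cu, mk3]
  · refine Fin.lastCases ?_ (fun k => ?_) k
    · simp [cw, mk3]
    · simp [cz, mk3]

private theorem mk3_continuous : Continuous fun x : ((Fin n → ℂ) × ℂ) × ℂ => mk3 x.1.1 x.1.2 x.2 := by
  unfold mk3
  exact Continuous.finSnoc (A := fun _ => ℂ)
    (Continuous.finSnoc (A := fun _ => ℂ) (continuous_fst.comp continuous_fst) (continuous_snd.comp continuous_fst))
    continuous_snd

private noncomputable def F1 (P : (MvPolynomial (Fin n) ℂ)[X]) : MvPolynomial (Fin (n + 2)) ℂ :=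
  P.eval₂ (MvPolynomial.rename (R := ℂ) (fun k : Fin n => k.castSucc.castSucc) : _ →ₐ[ℂ] _).toRingHom
    (MvPolynomial.X (Fin.last n).castSucc)

private theorem eval_F1 (P : (MvPolynomial (Fin n) ℂ)[X]) (p : Fin (n + 2) → ℂ) :
    MvPolynomial.eval p (F1 P) = ev P (cz p, cw p) := by
  unfold F1 ev
  rw [Polynomial.hom_eval₂, Polynomial.eval_map, MvPolynomial.eval_X]
  congr 1
  ext a
  · simp
  · simp [cz]

private noncomputable def F2 (r : MvPolynomial (Fin n) ℂ) : MvPolynomial (Fin (n + 2)) ℂ :=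
  MvPolynomial.X (Fin.last (n + 1)) * MvPolynomial.rename (fun k : Fin n => k.castSucc.castSucc) r - 1

private theorem eval_F2 (r : MvPolynomial (Fin n) ℂ) (p : Fin (n + 2) → ℂ) :
    MvPolynomial.eval p (F2 r) = cu p * MvPolynomial.eval (cz p) r - 1 := by
  unfold F2
  rw [map_sub, map_mul, map_one, MvPolynomial.eval_X, MvPolynomial.eval_rename]
  rfl

private theorem mem_model (P : (MvPolynomial (Fin n) ℂ)[X]) (r : MvPolynomial (Fin n) ℂ)
    (p : Fin (n + 2) → ℂ) : (∀ f ∈ ({F1 P, F2 r} : Set _), MvPolynomial.eval p f = 0) ↔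
      ev P (cz p, cw p) = 0 ∧ cu p * MvPolynomial.eval (cz p) r - 1 = 0 := by
  rw [← eval_F1, ← eval_F2]
  constructor
  · intro h
    exact ⟨h _ (Or.inl rfl), h _ (Or.inr rfl)⟩
  · rintro ⟨h1, h2⟩ f (rfl | rfl)
    · exact h1
    · exact h2

private noncomputable def homeo (P : (MvPolynomial (Fin n) ℂ)[X]) (r : MvPolynomial (Fin n) ℂ) :
    H13M.CS P r ≃ₜ {p : Fin (n + 2) → ℂ | ∀ f ∈ ({F1 P, F2 r} : Set _), MvPolynomial.eval p f = 0} where
  toFun x := ⟨mk3 x.1.1 x.1.2 (MvPolynomial.eval x.1.1 r)⁻¹, by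
    change ∀ f ∈ ({F1 P, F2 r} : Set _), _
    rw [mem_model, cz_mk3, cw_mk3, cu_mk3]
    exact ⟨x.2.2, by rw [inv_mul_cancel₀ x.2.1, sub_self]⟩⟩
  invFun p := ⟨(cz p.1, cw p.1), by
    obtain ⟨h1, h2⟩ := (mem_model P r p.1).1 p.2
    refine ⟨?_, h1⟩
    intro h
    change MvPolynomial.eval (cz p.1) r = 0 at h
    rw [h] at h2
    norm_num at h2⟩
  left_inv x := by
    apply Subtype.ext
    exact Prod.ext (cz_mk3 _ _ _) (cw_mk3 _ _ _)
  right_inv p := by
    apply Subtype.ext
    obtain ⟨h1, h2⟩ := (mem_model P r p.1).1 p.2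
    have h3 : cu p.1 = (MvPolynomial.eval (cz p.1) r)⁻¹ :=
      eq_inv_of_mul_eq_one_left (by linear_combination h2)
    change mk3 (cz p.1) (cw p.1) (MvPolynomial.eval (cz p.1) r)⁻¹ = p.1
    rw [← h3, mk3_eta]
  continuous_toFun := by
    apply Continuous.subtype_mk
    exact mk3_continuous.comp (continuous_subtype_val.prodMk
      (((MvPolynomial.continuous_eval r).comp (continuous_fst.comp continuous_subtype_val)).inv₀
        fun x => x.2.1))
  continuous_invFun := by
    apply Continuous.subtype_mk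
    refine Continuous.prodMk (continuous_pi fun k => ?_) ?_
    · exact (continuous_apply _).comp continuous_subtype_val
    · exact (continuous_apply _).comp continuous_subtype_val

end model

/-- The group of the hypersurface part is quasi-projective.
Proof: the algebraic set S = {(z, w, t) : P (z, w) = 0, t * r z = 1} in Fin (d + 2) → ℂ is homeomorphic to
CS P r; near each of its points it is the zero set of the polynomial map (P (z, w), t r(z) - 1), whose
derivative is surjective (∂P/∂w ≠ 0 and r ≠ 0).  Compare H13K/Q1.lean and K20.lean. -/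
theorem cs_qp {d : ℕ} (P : (MvPolynomial (Fin d) ℂ)[X]) (hP : P.Monic)
    (r : MvPolynomial (Fin d) ℂ) (hs : H13M.Simple P r) (y : H13M.CS P r) :
    IsQP (FundamentalGroup (H13M.CS P r) y) := by
  refine ⟨d + 2, {p : Fin (d + 2) → ℂ | ∀ f ∈ ({F1 P, F2 r} : Set _), MvPolynomial.eval p f = 0},
    ⟨{F1 P, F2 r}, rfl⟩, ?_, homeo P r y, b3_pi (homeo P r).symm ((homeo P r).symm_apply_apply y)⟩
  intro p hp
  obtain ⟨hp1, hp2⟩ := (mem_model P r p).1 hp
  have hr : MvPolynomial.eval (cz p) r ≠ 0 := by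
    intro h
    rw [h] at hp2
    norm_num at hp2
  have hP' : ev (Polynomial.derivative P) (cz p, cw p) ≠ 0 := hs (cz p, cw p) hr hp1
  set g : (Fin (d + 2) → ℂ) → (Fin 2 → ℂ) :=
    fun z => ![MvPolynomial.eval z (F1 P), MvPolynomial.eval z (F2 r)] with hg
  have hdiff : Differentiable ℂ g := by
    rw [differentiable_pi]
    intro i
    fin_cases i
    · exact fun z => (AnalyticOnNhd.eval_mvPolynomial (𝕜 := ℂ) (F1 P) z (Set.mem_univ z)).differentiableAt
    · exact fun z => (AnalyticOnNhd.eval_mvPolynomial (𝕜 := ℂ) (F2 r) z (Set.mem_univ z)).differentiableAt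
  have h2 : HasFDerivAt g (fderiv ℂ g p) p := (hdiff p).hasFDerivAt
  have hline : ∀ e : Fin (d + 2) → ℂ, HasDerivAt (fun t : ℂ => g (p + t • e)) (fderiv ℂ g p e) 0 := by
    intro e
    have h3 : HasDerivAt (fun t : ℂ => p + t • e) e 0 := by
      have h4 := ((hasDerivAt_id (0 : ℂ)).smul_const e).const_add p
      simpa using h4
    have h6 : HasFDerivAt g (fderiv ℂ g p) (p + (0 : ℂ) • e) := by simpa using h2
    exact h6.comp_hasDerivAt (0 : ℂ) h3
  have hcoord : ∀ (a b : ℂ) (t : ℂ), cz (p + t • mk3 0 a b) = cz p ∧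
      cw (p + t • mk3 0 a b) = cw p + t * a ∧ cu (p + t • mk3 0 a b) = cu p + t * b := by
    intro a b t
    refine ⟨?_, ?_, ?_⟩
    · funext k
      have := congrFun (cz_mk3 (0 : Fin d → ℂ) a b) k
      change p _ + t * cz (mk3 0 a b) k = p _
      rw [this]
      simp
    · change p _ + t * cw (mk3 0 a b) = cw p + t * a
      rw [cw_mk3]
      rfl
    · change p _ + t * cu (mk3 0 a b) = cu p + t * b
      rw [cu_mk3]
      rfl
  have hgl : ∀ (a b : ℂ) (t : ℂ), g (p + t • mk3 0 a b) =
      ![ev P (cz p, cw p + t * a), (cu p + t * b) * MvPolynomial.eval (cz p) r - 1] := by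
    intro a b t
    obtain ⟨e1, e2, e3⟩ := hcoord a b t
    simp only [hg]
    rw [eval_F1, eval_F2, e1, e2, e3]
  -- the derivative in the direction of `w`
  have hw : fderiv ℂ g p (mk3 0 1 0) = ![ev (Polynomial.derivative P) (cz p, cw p), 0] := by
    have h5 := hline (mk3 0 1 0)
    have h7 : HasDerivAt (fun t : ℂ => (![ev P (cz p, cw p + t * 1),
        (cu p + t * 0) * MvPolynomial.eval (cz p) r - 1] : Fin 2 → ℂ))
        ![ev (Polynomial.derivative P) (cz p, cw p), 0] 0 := by
      rw [hasDerivAt_pi]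
      intro i
      fin_cases i
      · have h8 := (P.map (MvPolynomial.eval (cz p))).hasDerivAt (cw p + 0)
        rw [Polynomial.derivative_map] at h8
        have h9 := h8.comp_const_add (cw p) 0
        rw [add_zero] at h9
        simpa [ev] using h9
      · simpa using hasDerivAt_const (0 : ℂ) (cu p * MvPolynomial.eval (cz p) r - 1)
    have h10 : (fun t : ℂ => g (p + t • mk3 0 1 0)) = fun t => ![ev P (cz p, cw p + t * 1),
        (cu p + t * 0) * MvPolynomial.eval (cz p) r - 1] := funext fun t => hgl 1 0 t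
    rw [h10] at h5
    exact h5.unique h7
  have hu : fderiv ℂ g p (mk3 0 0 1) = ![0, MvPolynomial.eval (cz p) r] := by
    have h5 := hline (mk3 0 0 1)
    have h7 : HasDerivAt (fun t : ℂ => (![ev P (cz p, cw p + t * 0),
        (cu p + t * 1) * MvPolynomial.eval (cz p) r - 1] : Fin 2 → ℂ))
        ![0, MvPolynomial.eval (cz p) r] 0 := by
      rw [hasDerivAt_pi]
      intro i
      fin_cases i
      · simpa using hasDerivAt_const (0 : ℂ) (ev P (cz p, cw p))
      · have h8 := (((hasDerivAt_id (0 : ℂ)).const_add (cu p)).mul_const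
          (MvPolynomial.eval (cz p) r)).sub_const 1
        simpa using h8
    have h10 : (fun t : ℂ => g (p + t • mk3 0 0 1)) = fun t => ![ev P (cz p, cw p + t * 0),
        (cu p + t * 1) * MvPolynomial.eval (cz p) r - 1] := funext fun t => hgl 0 1 t
    rw [h10] at h5
    exact h5.unique h7
  refine ⟨2, g, Set.univ, isOpen_univ, Set.mem_univ p, hdiff.differentiableOn, ?_, ?_⟩
  · intro v
    refine ⟨(v 0 / ev (Polynomial.derivative P) (cz p, cw p)) • mk3 0 1 0 +
      (v 1 / MvPolynomial.eval (cz p) r) • mk3 0 0 1, ?_⟩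
    rw [map_add, map_smul, map_smul, hw, hu]
    funext i
    fin_cases i
    · simp [div_mul_cancel₀ _ hP']
    · simp [div_mul_cancel₀ _ hr]
  · intro z _
    constructor
    · intro h
      obtain ⟨h3, h4⟩ := (mem_model P r z).1 h
      funext i
      fin_cases i
      · change MvPolynomial.eval z (F1 P) = 0
        rw [eval_F1]
        exact h3
      · change MvPolynomial.eval z (F2 r) = 0
        rw [eval_F2]
        exact h4
    · intro h
      apply (mem_model P r z).2
      rw [← eval_F1, ← eval_F2]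
      exact ⟨congrFun h 0, congrFun h 1⟩

end H13V2
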