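import Pool.Agent.Lib.H13V2.D

set_option autoImplicit false

open scoped Polynomial

namespace H13V2

open H13K H13M

/-- Dimension zero: a monic irreducible polynomial over ℂ has degree one, the set is a point. -/
theorem cs_zero (P : (MvPolynomial (Fin 0) ℂ)[X]) (hP : P.Monic) (hi : Irreducible P)
    (r : MvPolynomial (Fin 0) ℂ) : (H13M.CS P r).Subsingleton := by
  let e : MvPolynomial (Fin 0) ℂ ≃+* ℂ := (MvPolynomial.isEmptyAlgEquiv ℂ (Fin 0)).toRingEquiv
  have hi' : Irreducible (Polynomial.mapEquiv e P) := (MulEquiv.irreducible_iff (Polynomial.mapEquiv e)).mpr hi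
  have hd : (Polynomial.mapEquiv e P).degree = 1 := IsAlgClosed.degree_eq_one_of_irreducible ℂ hi'
  have hd1 : (P.map (e : MvPolynomial (Fin 0) ℂ →+* ℂ)).degree = 1 := hd
  have hd' : P.natDegree = 1 := by
    rw [Polynomial.degree_map_eq_of_injective e.injective] at hd1
    exact Polynomial.natDegree_eq_of_degree_eq_some hd1
  have hP' : P = Polynomial.X + Polynomial.C (P.coeff 0) := hP.eq_X_add_C hd'
  have key : ∀ q ∈ H13M.CS P r, q.2 = -MvPolynomial.eval q.1 (P.coeff 0) := by
    intro q hq
    have h1 : ev P q = 0 := hq.2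
    rw [hP'] at h1
    unfold ev at h1
    simp at h1
    exact eq_neg_of_add_eq_zero_left h1
  intro q hq q' hq'
  have h1 : q.1 = q'.1 := Subsingleton.elim _ _
  refine Prod.ext h1 ?_
  rw [key q hq, key q' hq', h1]

/-- The fundamental group of a point. -/
theorem pi_subsingleton {X : Type} [TopologicalSpace X] [Subsingleton X] (x : X) :
    Subsingleton (FundamentalGroup X x) := by
  have h : Subsingleton (Path.Homotopic.Quotient x x) := by
    refine ⟨fun a b => ?_⟩
    induction a using Quotient.inductionOn
    induction b using Quotient.inductionOn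
    congr 1
    ext t
    exact Subsingleton.elim _ _
  refine ⟨fun a b => ?_⟩
  have e : ∀ c : FundamentalGroup X x, FundamentalGroup.fromPath (FundamentalGroup.toPath c) = c := fun c => by
    rfl
  rw [← e a, ← e b, Subsingleton.elim (FundamentalGroup.toPath a) (FundamentalGroup.toPath b)]

end H13V2
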