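import Mathlib
import Pool.Agent.Lib.H13K.KD
import Pool.Agent.Lib.H13M.D

set_option autoImplicit false

open scoped Polynomial

namespace H13V2

open H13K H13M

variable {n : ℕ}

/-- The affine algebraic set of an ideal. -/
def VI (I : Ideal (MvPolynomial (Fin n) ℂ)) : Set (Fin n → ℂ) :=
  {x | ∀ f ∈ I, MvPolynomial.eval x f = 0}

/-- The part of the algebraic set where `g` does not vanish. -/
def VG (I : Ideal (MvPolynomial (Fin n) ℂ)) (g : MvPolynomial (Fin n) ℂ) : Set (Fin n → ℂ) :=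
  {x | (∀ f ∈ I, MvPolynomial.eval x f = 0) ∧ MvPolynomial.eval x g ≠ 0}

/-- The part `g' ≠ 0` of the variety is isomorphic to `{(z, w) : P (z, w) = 0, r z ≠ 0}`. -/
structure NF (I : Ideal (MvPolynomial (Fin n) ℂ)) (g' : MvPolynomial (Fin n) ℂ) (d : ℕ)
    (P : (MvPolynomial (Fin d) ℂ)[X]) (r : MvPolynomial (Fin d) ℂ) : Prop where
  monic : P.Monic
  irr : Irreducible P
  ne : r ≠ 0
  simple : H13M.Simple P r
  map : ∃ (ζ : Fin d → MvPolynomial (Fin n) ℂ) (ω : MvPolynomial (Fin n) ℂ)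
      (q : Fin n → (MvPolynomial (Fin d) ℂ)[X]),
    (∀ x ∈ VI I, MvPolynomial.eval x g' =
      MvPolynomial.eval (fun i => MvPolynomial.eval x (ζ i)) r) ∧
    (∀ x ∈ VI I, ev P (fun i => MvPolynomial.eval x (ζ i), MvPolynomial.eval x ω) = 0) ∧
    (∀ x ∈ VI I, ∀ j, x j * MvPolynomial.eval (fun i => MvPolynomial.eval x (ζ i)) r =
      ev (q j) (fun i => MvPolynomial.eval x (ζ i), MvPolynomial.eval x ω)) ∧
    ∀ y ∈ H13M.CS P r, ∃ x ∈ VI I, (∀ j, x j * MvPolynomial.eval y.1 r = ev (q j) y) ∧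
      (∀ i, MvPolynomial.eval x (ζ i) = y.1 i) ∧ MvPolynomial.eval x ω = y.2

end H13V2
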